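import Mathlib
import Pool.Agent.Results.MP_620441_co.AffineHull

set_option autoImplicit false
open Finset

namespace Pool.Agent.Results.MP_c130bd_co.RadonSpan

/-- Points of `d`-space. -/
abbrev Pt (d : ℕ) := Fin d → ℝ

/-- General position: every hyperplane `{x | w ⬝ᵥ x = b}` with `w ≠ 0` contains at most `d`
points of `S`. -/
def GenPos (d : ℕ) (S : Finset (Pt d)) : Prop :=
  ∀ (w : Pt d) (b : ℝ), w ≠ 0 → {x | x ∈ S ∧ w ⬝ᵥ x = b}.ncard ≤ d

/-- `A` and `B` are nonempty and disjoint and their convex hulls intersect. -/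
def RadonPair {d : ℕ} (A B : Finset (Pt d)) : Prop :=
  A.Nonempty ∧ B.Nonempty ∧ (∀ x ∈ A, x ∉ B) ∧
    (convexHull ℝ (A : Set (Pt d)) ∩ convexHull ℝ (B : Set (Pt d))).Nonempty

/-- `r_i(S)`: the number of unordered Radon partitions of `S` of type `{i, |S| - i}`. -/
noncomputable def radonNum {d : ℕ} (S : Finset (Pt d)) (i : ℕ) : ℕ :=
  {q : Sym2 (Finset (Pt d)) | ∃ A B, q = s(A, B) ∧ RadonPair A B ∧ (A : Set (Pt d)) ∪ B = S ∧
    A.card = i}.ncard

/-- The set of all Radon vectors of sets of `s` points in general position in `d`-space.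
Coordinate `j : Fin (s / 2)` is `r_{j+1}(S)`. -/
def RadonVectors (s d : ℕ) : Set (Fin (s / 2) → ℝ) :=
  {r | ∃ S : Finset (Pt d), S.card = s ∧ GenPos d S ∧
    r = fun j : Fin (s / 2) => (radonNum S ((j : ℕ) + 1) : ℝ)}

/-- The linear relations: `∑ r_j = 2^(s-1) - ∑_{k ≤ d} C(s-1, k)` and, if `d` is odd and `s` is
even, `∑ (-1)^j r_j = 0`. -/
def Relations (s d : ℕ) (r : Fin (s / 2) → ℝ) : Prop :=
  (∑ j, r j = 2 ^ (s - 1) - ∑ k ∈ range (d + 1), ((s - 1).choose k : ℝ)) ∧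
  (Odd d → Even s → ∑ j : Fin (s / 2), (-1) ^ ((j : ℕ) + 1) * r j = 0)

theorem radonVectors_eq (s d : ℕ) : RadonVectors s d =
    (LinearMap.fst ℝ (Fin (s / 2) → ℝ) (Fin (d / 2 + 1) → ℝ)).toAffineMap ''
      Pool.Agent.Results.MP_620441_co.AffineHull.V s d := by
  ext r
  constructor
  · rintro ⟨S, h1, h2, rfl⟩
    exact ⟨_, ⟨S, h1, h2, rfl⟩, rfl⟩
  · rintro ⟨_, ⟨S, h1, h2, rfl⟩, rfl⟩
    exact ⟨S, h1, h2, rfl⟩

/-- For `d ≥ 2` and `s ≥ d + 4` the affine hull of the set of Radon vectors is exactly the set of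
solutions of `Relations s d`. -/
theorem result : ∀ d s : ℕ, 2 ≤ d → d + 4 ≤ s →
    (affineSpan ℝ (RadonVectors s d) : Set (Fin (s / 2) → ℝ)) = {r | Relations s d r} := by
  intro d s hd hs
  rw [radonVectors_eq, ← AffineSubspace.map_span, AffineSubspace.coe_map,
    Pool.Agent.Results.MP_620441_co.AffineHull.result d s (by omega) (by omega)]
  ext r
  constructor
  · rintro ⟨v, hv, rfl⟩
    exact ⟨hv.1, hv.2.2.2.1⟩
  · rintro ⟨h1, h2⟩
    obtain ⟨Q, hQ⟩ : ∃ Q : ℝ, Q = ∑ j : Fin (s / 2), ((j : ℝ) + 1) * ((s : ℝ) - (j + 1)) * r j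
      - (s.choose 2 : ℝ) * (2 ^ (s - 2) - ∑ k ∈ range (d + 1), ((s - 2).choose k : ℝ)) := ⟨_, rfl⟩
    have hd1 : (d : ℝ) - 1 ≠ 0 := by
      have : (2 : ℝ) ≤ d := by exact_mod_cast hd
      linarith
    obtain ⟨y, hy⟩ : ∃ y : ℝ, y = (Q - ((d : ℝ) + 1) * (s.choose (d + 2) : ℝ)) / ((d : ℝ) - 1) :=
      ⟨_, rfl⟩
    have hy' : ((d : ℝ) - 1) * y = Q - ((d : ℝ) + 1) * (s.choose (d + 2) : ℝ) := by
      rw [hy]; field_simp
    let i0 : Fin (d / 2 + 1) := ⟨0, by omega⟩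
    let i1 : Fin (d / 2 + 1) := ⟨1, by omega⟩
    refine ⟨(r, Pi.single i0 ((s.choose (d + 2) : ℝ) - y) + Pi.single i1 y), ?_, rfl⟩
    refine ⟨h1, ?_, ?_, h2, fun h => by omega, fun h => by omega, fun h => by omega⟩
    · simp [Finset.sum_add_distrib]
    · have key : ∀ (w : Fin (d / 2 + 1) → ℝ) (a : Fin (d / 2 + 1)) (x : ℝ),
          ∑ i, w i * (Pi.single a x : Fin (d / 2 + 1) → ℝ) i = w a * x := by
        intro w a x
        rw [Finset.sum_eq_single a]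
        · simp
        · intro b _ hb
          simp [Pi.single_eq_of_ne hb]
        · simp
      have e : ∑ i : Fin (d / 2 + 1), ((i : ℝ) + 1) * ((d : ℝ) + 2 - (i + 1)) *
          ((Pi.single i0 ((s.choose (d + 2) : ℝ) - y) + Pi.single i1 y :
            Fin (d / 2 + 1) → ℝ) i)
          = ((i0 : ℝ) + 1) * ((d : ℝ) + 2 - (i0 + 1)) * ((s.choose (d + 2) : ℝ) - y)
            + ((i1 : ℝ) + 1) * ((d : ℝ) + 2 - (i1 + 1)) * y := by
        simp only [Pi.add_apply, mul_add (_ * _ : ℝ), Finset.sum_add_distrib]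
        rw [key (fun i => ((i : ℝ) + 1) * ((d : ℝ) + 2 - (i + 1))),
          key (fun i => ((i : ℝ) + 1) * ((d : ℝ) + 2 - (i + 1)))]
      have c0 : ((i0 : ℕ) : ℝ) = 0 := by simp [i0]
      have c1 : ((i1 : ℕ) : ℝ) = 1 := by simp [i1]
      show ∑ j : Fin (s / 2), ((j : ℝ) + 1) * ((s : ℝ) - (j + 1)) * r j - _ = _
      rw [e, c0, c1]
      linear_combination -hQ - hy'

end Pool.Agent.Results.MP_c130bd_co.RadonSpan
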